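import Pool.Agent.Lib.MP_6b8fc7_nt.Pre
import Pool.Agent.Lib.MP_6b8fc7_nt.P.D5
import Pool.Agent.Lib.MP_6b8fc7_nt.P.D7

set_option autoImplicit false

/-!
# MP_6b8fc7_nt: the theorems
-/

namespace Pool.Agent.PSq

theorem all_D7 : S_D7 := p_D7 (pre_D6 (p_D5 p_D1 p_D2))

theorem all_T2 : T2 := pre_T2 all_D7

theorem all_T3 : T3 := pre_T3 all_D7

end Pool.Agent.PSq
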