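import Mathlib
import Pool.Agent.Lib.MP_6b8fc7_nt.G.Defs
import Pool.Agent.Lib.MP_bca3e5_nt.LS1

set_option autoImplicit false

/-!
# MP_6b8fc7_nt: odd numbers `n = 2 m ^ 2 + P_r`, definitions

`chi n p = (2n/p)`, `gn n p = (1 + (2n/p)) / p` is the density of `p ∣ n - 2 m ^ 2`.
-/

namespace Pool.Agent.PSq

open Finset
open scoped ArithmeticFunction.Omega
open Pool.Agent.CH.S (Pr OP th SS Sm)
open Pool.Agent.MPbca (ee)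

/-- The Jacobi symbol `(2n/p)`. -/
noncomputable def chi (n p : ℕ) : ℝ := ((jacobiSym (2 * (n : ℤ)) p : ℤ) : ℝ)

/-- The density of the `m` with `p ∣ n - 2 m ^ 2`. -/
noncomputable def gn (n p : ℕ) : ℝ := (1 + chi n p) / (p : ℝ)

open Classical in
/-- The odd primes in `[X ^ (i / N), X ^ ((i + 1) / N))`. -/
noncomputable def Jw (N X i : ℕ) : Finset ℕ := (range (X + 1)).filter (fun p =>
  p.Prime ∧ 3 ≤ p ∧ (X : ℝ) ^ ((i : ℝ) / N) ≤ p ∧ (p : ℝ) < (X : ℝ) ^ (((i : ℝ) + 1) / N))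

/-- The symbols `(2n/p)` are not too often `1` in the windows. -/
def Good (N X n : ℕ) : Prop := ∀ i : ℕ, 1 ≤ i → i < N →
  ∑ p ∈ Jw N X i, chi n p / (p : ℝ) ≤ 1 / (N : ℝ) ^ 2

/-- The number of the `m ∈ [1, M]` with `d ∣ n - 2 m ^ 2`. -/
def cnt (M n d : ℕ) : ℕ :=
  ((Icc 1 M).filter (fun m : ℕ => (d : ℤ) ∣ (n : ℤ) - 2 * (m : ℤ) ^ 2)).card

/-- The number of the residues `m` modulo `d` with `d ∣ n - 2 m ^ 2`. -/
def rho (n d : ℕ) : ℕ :=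
  ((range d).filter (fun m : ℕ => (d : ℤ) ∣ (n : ℤ) - 2 * (m : ℤ) ^ 2)).card

/-- The remainder. -/
noncomputable def rr (M n d : ℕ) : ℝ := (cnt M n d : ℝ) - (M : ℝ) * (rho n d : ℝ) / (d : ℝ)

/-- The Fourier coefficient of the remainder. -/
noncomputable def Er (M b d : ℕ) : ℂ :=
  ∑ m ∈ Icc 1 M, ee (2 * m ^ 2) (-((b : ℝ) / (d : ℝ)))
    - ((M : ℝ) / (d : ℝ) : ℝ) * ∑ m ∈ range d, ee (2 * m ^ 2) (-((b : ℝ) / (d : ℝ)))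

/-- The odd primes less than `z`. -/
noncomputable def Pz (z : ℝ) : Finset ℕ := (range ⌈z⌉₊).filter (fun p => p.Prime ∧ 3 ≤ p)

/-- `V_n(z) = ∏_{2 < p < z} (1 - (1 + (2n/p)) / p)`. -/
noncomputable def Vn (n : ℕ) (z : ℝ) : ℝ := ∏ p ∈ Pz z, (1 - gn n p)

/-- The singular series cut at `n`: `∏_{2 < p ≤ n} (1 - (2n/p) / (p - 1))`. -/
noncomputable def Sn (n : ℕ) : ℝ :=
  ∏ p ∈ (range (n + 1)).filter (fun p => p.Prime ∧ 3 ≤ p), (1 - chi n p / ((p : ℝ) - 1))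

/-- The number of the `m ≥ 1` for which `n - 2 m ^ 2` is a prime or the product of at most `r` primes
(a number `≥ 2` with at most `r` prime factors, counted with multiplicity). -/
noncomputable def NP (r n : ℕ) : ℕ :=
  ((Icc 1 n).filter (fun m : ℕ => 2 * m ^ 2 + 2 ≤ n ∧ Ω (n - 2 * m ^ 2) ≤ r)).card

/-- A system of weights of level `Q`. -/
structure Wei (Q : ℝ) (c : ℕ → ℝ) : Prop where
  bd : ∀ d, |c d| ≤ 3
  sup : ∀ d, c d ≠ 0 → Odd d ∧ Squarefree d ∧ (d : ℝ) ≤ Q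

open Classical in
/-- The weighted sieve with the parameters `r` (number of prime factors), `ζ`, `τ` (exponents of `z`
and `y`) and `θ` (exponent of the level). -/
def WS (r : ℕ) (ζ τ θ : ℝ) : Prop :=
  ∃ (N : ℕ) (c0 : ℝ) (X0 : ℕ), 2 ≤ N ∧ 0 < c0 ∧ ∀ X : ℕ, X0 ≤ X → ∃ c : ℕ → ℝ,
    Wei ((X : ℝ) ^ θ) c ∧
    (∀ a : ℕ, Odd a → a ≤ X → ∑ d ∈ a.divisors, c d ≤ (if Ω a ≤ r then 1 else 0) +
      (if ∃ p : ℕ, p.Prime ∧ (X : ℝ) ^ ζ ≤ p ∧ (p : ℝ) < (X : ℝ) ^ τ ∧ p ^ 2 ∣ a then 1 else 0)) ∧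
    ∀ n Y : ℕ, Odd n → X ≤ Y → Y ≤ X ^ 2 → Good N Y n →
      c0 * Vn n ((X : ℝ) ^ ζ) ≤ ∑ d ∈ Icc 1 X, c d * ∏ p ∈ d.primeFactors, gn n p

end Pool.Agent.PSq
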