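import Pool.Agent.Lib.MP_6b8fc7_nt.P.A1
import Pool.Agent.Lib.MP_6b8fc7_nt.P.A2
import Pool.Agent.Lib.MP_6b8fc7_nt.P.A3
import Pool.Agent.Lib.MP_6b8fc7_nt.P.D1
import Pool.Agent.Lib.MP_6b8fc7_nt.P.D2
import Pool.Agent.Lib.MP_6b8fc7_nt.P.D3
import Pool.Agent.Lib.MP_6b8fc7_nt.P.D4
import Pool.Agent.Lib.MP_6b8fc7_nt.P.D6
import Pool.Agent.Lib.MP_6b8fc7_nt.P.F1
import Pool.Agent.Lib.MP_6b8fc7_nt.P.F2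
import Pool.Agent.Lib.MP_6b8fc7_nt.P.F3
import Pool.Agent.Lib.MP_6b8fc7_nt.P.F4
import Pool.Agent.Lib.MP_6b8fc7_nt.P.F5
import Pool.Agent.Lib.MP_6b8fc7_nt.P.F6
import Pool.Agent.Lib.MP_6b8fc7_nt.P.L1
import Pool.Agent.Lib.MP_6b8fc7_nt.P.L2
import Pool.Agent.Lib.MP_6b8fc7_nt.P.L3
import Pool.Agent.Lib.MP_6b8fc7_nt.P.L4
import Pool.Agent.Lib.MP_6b8fc7_nt.P.M1
import Pool.Agent.Lib.MP_6b8fc7_nt.P.M2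
import Pool.Agent.Lib.MP_6b8fc7_nt.P.M3
import Pool.Agent.Lib.MP_6b8fc7_nt.P.M4
import Pool.Agent.Lib.MP_6b8fc7_nt.P.M5
import Pool.Agent.Lib.MP_6b8fc7_nt.P.M7
import Pool.Agent.Lib.MP_6b8fc7_nt.P.W1
import Pool.Agent.Lib.MP_6b8fc7_nt.P.W2
import Pool.Agent.Lib.MP_6b8fc7_nt.P.W3
import Pool.Agent.Lib.MP_6b8fc7_nt.P.W4
import Pool.Agent.Lib.MP_6b8fc7_nt.P.W5
import Pool.Agent.Lib.MP_6b8fc7_nt.P.W6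
import Pool.Agent.Lib.MP_6b8fc7_nt.P.W7

set_option autoImplicit false

/-!
# MP_6b8fc7_nt: the theorems, assuming [D5] and [D7]
-/

namespace Pool.Agent.PSq

theorem pre_D6 (h5 : S_D5) : S_D6 := p_D6 p_M1 p_D3 (p_D4 p_M2) h5

theorem all_W7 : S_W7 := p_W7 (p_M5 p_M1 (p_M4 p_M1)) p_W1 p_W2 p_W3 p_W4 p_W5

theorem pre_T2 (h7 : S_D7) : T2 :=
  p_A2 (p_M7 p_M1 p_M3) p_L1 p_L2 p_L4 h7 p_W6 all_W7 (p_A1 p_L1 p_L3)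

theorem pre_T3 (h7 : S_D7) : T3 :=
  p_A3 (p_M7 p_M1 p_M3) h7 p_W6 all_W7 (p_F6 p_F1 p_F2 p_F3 (p_F5 p_L1 p_L2 p_F4) p_L4)
    (p_A1 p_L1 p_L3)

end Pool.Agent.PSq
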