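import Pool.Agent.Lib.MP_6b8fc7_nt.Defs

set_option autoImplicit false

/-!
# MP_6b8fc7_nt: the statements of the pieces, with complete proofs in words

Every `S_xx : Prop` is one piece. File: `Lib/MP_6b8fc7_nt/P/xx.lean`, namespace `Pool.Agent.PSq`, theorem
`p_xx : S_xx` (with the pieces named after the word Uses as hypotheses, in this order; the other
pieces are not imported). Auxiliary lemmas are `private` or have the prefix `xx_`.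

Section G (`G/Ls.lean`: `g_ls`, `g_U1`, `Vg_pos`, `Vg_mul`, `Vg_succ`, `Vg_sum`, `mem_Pr`;
`G/Fl.lean`: `g_fl`; `G/Ss.lean`: `g_ss`) is proved and may be imported.

## Overview

THEOREM A (`T3`): for all but at most `X^(5/8)` odd numbers `n ≤ X` there are at least
`c √n / log n * Sn n` numbers `m` such that `n - 2 m^2` has at most two prime factors.
THEOREM B (`T2`): for every large `Y` there are at most `K` squarefree numbers `s ≤ Y` such that for all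
odd `n ∈ [√Y, Y]` which are not of the form `s k^2` with one of these `s`, there are at least
`c √n / log n * Sn n` numbers `m` such that `n - 2 m^2` has at most three prime factors.

The sequence is `n - 2 m^2`, `1 ≤ m ≤ M = ⌊√(X/5)⌋`, `n ∈ (X/2, X]`. The density `gn n p` of the primes is
`(1 + χ(p))/p`, `χ = (2n/·)`. For good `n` (`Good N X n`) the sums of `χ(p)/p` over the primes in
`[X^(i/N), X^((i+1)/N))` are at most `1/N^2`, so the linear sieve can be used for the primes in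
`[X^δ, X]`. The squarefree parts of the odd numbers `n ≤ X` which are not good are at most `K(N)`
numbers (section D, a duality argument with `k`-th powers). The remainder is trivial for levels less
than `X^(1/2)`; for almost all `n` the level can be `X^0.562`, because the remainder `rr M n d` is a
function of `n` modulo `d` and the large sieve gives its mean square over `n ≤ X` (section F).
-/

namespace Pool.Agent.PSq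

open Finset
open scoped ArithmeticFunction.Omega
open Pool.Agent.CH.S (Pr OP th SS Sm)
open Pool.Agent.MPbca (ee)
open Pool.Agent.BVall (RepB)

/-! ## Section M: Mertens -/

/-- [M1] Uses: nothing. `Pool.Agent.CH.S.p_mer` (`Lib/MP_d610d0_nt/CH/S/P/mer.lean`, import it) gives for
`ε' = min ε 1 / 4` an `a0` with `log a ≤ (1 + ε') * V a ⌈w⌉₊ * log w` for `w ≥ a ≥ a0`, `V a k = ∏_{p ∈ Pr a k} (1 - 1/(p-1))`,
and `1 - 1/(p-1) ≤ 1 - 1/p ≤ exp (-1/p)`. With `w = m + 1` (`⌈w⌉₊ = m + 1`):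
`∑_{p ∈ Pr a (m+1)} 1/p ≤ log (log (m+1) / log a) + log (1 + ε')`, and
`log (log (m+1) / log m) ≤ (log (m+1) - log m) / log m ≤ 1 / (m * log m) ≤ ε'` for large `a ≤ m`. -/
def S_M1 : Prop := ∀ ε : ℝ, 0 < ε → ∃ a0 : ℕ, 3 ≤ a0 ∧ ∀ a m : ℕ, a0 ≤ a → a ≤ m →
  ∑ p ∈ Pr a (m + 1), 1 / (p : ℝ) ≤ Real.log (Real.log m / Real.log a) + ε

/-- [M2] Uses: nothing. The upper Mertens product. Proof: `∏_{p ≤ x} (1 - 1/p)⁻¹ ≥ ∑_{m ≤ x} 1/m ≥ log x` (Mathlib: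
Euler products over smooth numbers, `Nat.smoothNumbers`/`EulerProduct`, or a lemma of this kind in
`Lib`), and the factor of `p = 2` is `1/2`. -/
def S_M2 : Prop := ∃ C : ℝ, 0 < C ∧ ∀ x : ℕ, 2 ≤ x →
  ∏ p ∈ OP x, (1 - 1 / (p : ℝ)) ≤ C / Real.log x

/-- [M3] Uses: nothing. The lower Mertens product. Proof: `p_mer` with `ε = 1`, `a = n = a0`, `w = z ≥ a0`:
`∏_{a0 ≤ p < z} (1 - 1/(p-1)) ≥ log a0 / (2 log z)`, and the finitely many primes `3 ≤ p < a0` give a positive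
constant; for `z < a0` the product over `Pz z` is at least the product over all odd primes less
than `a0`, and `1 / log z ≤ 1`. -/
def S_M3 : Prop := ∃ c : ℝ, 0 < c ∧ ∀ z : ℝ, 3 ≤ z →
  c / Real.log z ≤ ∏ p ∈ Pz z, (1 - 1 / ((p : ℝ) - 1))

/-- [M4] sums over the primes for good `n`. Uses: `S_M1`.
Proof. We may assume `δ ≤ 1`. Choose `N ≥ 2` with `N δ ≥ 4` and `1/N + 4/(δ N) ≤ ε / 2`, and then `Y0` such that
`Y0 ^ δ ≥ 3`, `S_M1` with the error `ε / 8` holds from `a0 ≤ Y0 ^ (δ/2)` on, and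
`1/(Y0 ^ δ) ≤ ε / 8`. Let
`α = ⌊N log a / log Y⌋₊`, `β = ⌊N log m / log Y⌋₊`, so that `Y^(α/N) ≤ a < Y^((α+1)/N)`,
`Y^(β/N) ≤ m < Y^((β+1)/N)`, `δ N - 1 ≤ α ≤ β ≤ N`, so `α ≥ δ N / 2 ≥ 1`. Every prime `p ∈ Pr a (m + 1)` is in exactly one
window `Jw N Y i`, `α ≤ i ≤ β` (`i = ⌊N log p / log Y⌋₊`; `p ≥ 3`), and for `α < i < β` the whole window
is contained in `Pr a (m + 1)`. The full windows (`1 ≤ i < N`) give at most `N * (1 / N^2) = 1 / N`. The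
parts in the windows `α` and `β` give at most `∑ 1/p` over these parts (`|chi| ≤ 1`). For an index `i < N` the sum of
`1/p` over all primes of the window is, by `S_M1` (with `a` = the least and `m` = the largest prime in the
window; nothing to do if it is empty), at most `log ((i+1)/i) + ε/8 ≤ 1/i + ε / 8 ≤ 2/(δ N) + ε / 8`; for
`i = β = N` the window contains at most the prime `Y`: at most `1/Y ≤ ε/8`. If `α = β` there is only one part. Total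
`≤ 1/N + 4/(δ N) + ε / 4 ≤ ε`. -/
def S_M4 : Prop := ∀ ε δ : ℝ, 0 < ε → 0 < δ → ∃ N Y0 : ℕ, 2 ≤ N ∧
  ∀ Y n : ℕ, Y0 ≤ Y → Good N Y n → ∀ a m : ℕ, (Y : ℝ) ^ δ ≤ a → a ≤ m → m ≤ Y →
  ∑ p ∈ Pr a (m + 1), chi n p / (p : ℝ) ≤ ε

/-- [M5] the density for good `n`. Uses: `S_M1`, `S_M4`.
Proof. `ε' = min ε 1 / 16`; `N`, `Y0` from `S_M4` for `ε'`, `δ/2` (`X^δ ≥ Y^(δ/2)` as `Y ≤ X^2`), and `X0` large.
Second part: `gn n p = 1/p + chi n p / p`; `S_M1` and `S_M4` give `log (log m / log a) + 2 ε'`. First part: let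
`a ≤ b`, `b ≤ w ≤ X` (`b` is the `n` of `MerG`), `k = ⌈w⌉₊`. If `k = b` then `Vg = 1` and `log b ≤ log w`. Otherwise let
`m = k - 1`, `b ≤ m < w`, `m ≤ X`. For `p ≥ b ≥ 4`: `0 ≤ g p ≤ 2/p ≤ 1/2` and
`-log (1 - g p) ≤ g p + (g p)^2 ≤ g p + 4/p^2`, `∑_{p ≥ b} 4/p^2 ≤ 4/(b-1) ≤ ε'`. So
`-log (Vg (gn n) b k) ≤ log (log m / log b) + 3 ε'`, `Vg ≥ (log b / log m) exp (-3 ε') ≥ (log b / log w) / (1 + ε)`
(`exp (3 ε') ≤ 1 + ε`, as `3 ε' ≤ min ε 1 / 2`). -/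
def S_M5 : Prop := ∀ ε δ : ℝ, 0 < ε → 0 < δ → ∃ N X0 : ℕ, 2 ≤ N ∧
  ∀ X Y n : ℕ, X0 ≤ X → X ≤ Y → Y ≤ X ^ 2 → Good N Y n → ∀ a : ℕ, (X : ℝ) ^ δ ≤ a →
  MerG (gn n) ε a X ∧ ∀ m : ℕ, a ≤ m → m ≤ X →
    ∑ p ∈ Pr a (m + 1), gn n p ≤ Real.log (Real.log m / Real.log a) + ε

/-- [M7] the size of `Vn`. Uses: `S_M1`, `S_M3`.
Proof. `z = X ^ ζ`. (1) `0 ≤ gn n p ≤ 2/p` and `1 - 2/p ≥ (1 - 1/(p-1))^2` for `p ≥ 3` (the difference is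
`(p-2)/(p (p-1)^2)`), so `Vn ≥ (c/log z)^2 ≥ (c / log X)^2`. (2) `1 - (1 + χ)/p = (1 - 1/p) (1 - χ/(p-1))` and
`1 - 1/p ≥ 1 - 1/(p-1)`, `1 - χ/(p-1) ≥ 1/2 > 0`, so `Vn n z ≥ (c / log z) ∏_{p ∈ Pz z} (1 - χ/(p-1))`. `Sn n` has in addition the
factors with `z ≤ p ≤ n` (or it lacks factors if `z > n`; this does not happen for large `X` if `ζ < 1`,
as `n ≥ X/2`), their product is at most `∏ (1 + 1/(p-1)) ≤ exp (∑_{z ≤ p ≤ n} 2/p) ≤ exp (2 (log (1/ζ) + 1))`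
(`S_M1` with `ε = 1`, `a = ⌈z⌉₊`, `m = n`, `log n / log a ≤ 1/ζ`). `log z ≤ log X ≤ 2 log n`. -/
def S_M7 : Prop := ∀ ζ : ℝ, 0 < ζ → ζ < 1 → ∃ (c : ℝ) (X0 : ℕ), 0 < c ∧ ∀ X n : ℕ, X0 ≤ X →
  X ≤ 2 * n → n ≤ X → c / Real.log X ^ 2 ≤ Vn n ((X : ℝ) ^ ζ) ∧
    c / Real.log n * Sn n ≤ Vn n ((X : ℝ) ^ ζ)

/-! ## Section L: local densities and elementary estimates -/

/-- [L1] Uses: nothing. Proof: by the Chinese remainder theorem `d ↦ rho n d` is multiplicative on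
coprime numbers; for an odd prime `p` the map `m ↦ 2 m` is a bijection modulo `p` and
`p ∣ n - 2 m^2` iff `p ∣ (2m)^2 - 2n`, so `rho n p = 1 + (2n/p)` (`legendreSym.card_sqrts`,
`jacobiSym.legendreSym.to_jacobiSym`). Second part: `|chi| ≤ 1`. Third part: `d = ∏ p`. -/
def S_L1 : Prop := ∀ n d : ℕ, Odd d → Squarefree d →
  (rho n d : ℝ) = ∏ p ∈ d.primeFactors, (1 + chi n p) ∧
  (rho n d : ℝ) ≤ 2 ^ d.primeFactors.card ∧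
  (rho n d : ℝ) / d = ∏ p ∈ d.primeFactors, gn n p

/-- [L2] Uses: nothing. Proof: the number of the `m ∈ [1, M]` with `m ≡ m₀` modulo `d` differs from `M/d` by
less than `1`; sum over the `rho n d` classes `m₀`. -/
def S_L2 : Prop := ∀ M n d : ℕ, 1 ≤ d → |rr M n d| ≤ rho n d

/-- [L3] squares. Uses: nothing. Proof: Let `p` be a prime, `z ≤ p < y` (`p ≥ 3`). If `p ∤ n` and `p^2` divides
`n - 2 m^2` and `n - 2 m₁^2`, then `p^2 ∣ 2 (m - m₁) (m + m₁)`; `p` does not divide both factors (else `p ∣ 2 m`,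
`p ∣ m`, `p ∣ n`), so `m₁ ≡ ± m` modulo `p^2`, and the number of such `m ∈ [1, M]` is at most `2 (M/p^2 + 1)`. If
`p ∣ n`, then `p ∣ m`: at most `M / p ≤ M / z` of them, and the number of the primes `p ≥ z` dividing `n` is at
most `log n / log z`. Sum: `2 M ∑_{k ≥ z} 1/k^2 + 2 y + (M/z) (log n / log z)`, `∑_{k ≥ z} 1/k^2 ≤ 2/z`. -/
def S_L3 : Prop := ∀ (M n : ℕ) (z y : ℝ), 1 ≤ n → 3 ≤ z → z ≤ y →
  open Classical in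
  (((Icc 1 M).filter (fun m : ℕ => ∃ p : ℕ, p.Prime ∧ z ≤ p ∧ (p : ℝ) < y ∧
    ((p : ℤ) ^ 2) ∣ (n : ℤ) - 2 * (m : ℤ) ^ 2)).card : ℝ)
    ≤ 4 * M / z + 2 * y + M / z * (Real.log n / Real.log z)

/-- [L4] divisor sums. Uses: nothing. Proof: `2^ω(d) ≤ τ(d)`; `∑_{d ≤ Q} τ(d) = ∑_{a ≤ Q} ⌊Q/a⌋ ≤ Q (1 + log Q)`,
`∑_{d ≤ Q} τ(d)/d = ∑_{a b ≤ Q} 1/(a b) ≤ (∑_{a ≤ Q} 1/a)^2 ≤ (1 + log Q)^2`. -/
def S_L4 : Prop := ∀ Q : ℕ, 1 ≤ Q →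
  ∑ d ∈ Icc 1 Q, (2 : ℝ) ^ d.primeFactors.card ≤ Q * (1 + Real.log Q) ∧
  ∑ d ∈ Icc 1 Q, (2 : ℝ) ^ d.primeFactors.card / d ≤ (1 + Real.log Q) ^ 2

/-! ## Section D: the duality argument -/

/-- [D1] a character sum. Uses: nothing.
Proof. Let `D = s s'` (odd), `f j = (D/j)` for odd `j` and `f j = 0` for even `j`. `f` has the period `4 D`
(`jacobiSym.mod_right`) and is multiplicative. There is an odd `j₀` with `f j₀ = -1`: as `s ≠ s'` are squarefree there is a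
prime `q` which divides exactly one of them; `D = q E`, `q ∤ E`. Choose `j₀ ≡ 1` modulo `4 E` and `j₀ ≡ ν`
modulo `q`, `ν` a quadratic nonresidue modulo `q` (Chinese remainder). `(E/j₀) = (E/1) = 1` (period `4 E`),
`(q/j₀) = (j₀/q) = -1` by reciprocity, as `j₀ ≡ 1` modulo `4`. Multiplication by `j₀` (prime to `4 D`) permutes the residues
modulo `4 D`, so the sum over a complete period is `0`, and a sum over an interval is at most `4 D` in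
absolute value (remove complete periods; the rest has less than `4 D` terms). -/
def S_D1 : Prop := ∀ s s' : ℕ, Odd s → Squarefree s → Odd s' → Squarefree s' → s ≠ s' →
  ∀ u v : ℕ, |∑ j ∈ (Ico u v).filter (fun j => Odd j), ((jacobiSym ((s : ℤ) * s') j : ℤ) : ℝ)|
    ≤ 4 * s * s'

/-- [D2] partial summation. Uses: nothing.
Proof. `A j = ∑_{u ≤ i < j} F i`. `∑_{u ≤ j < v} F j / j = A v / (v-1) + ∑_{u < j < v} A j (1/(j-1) - 1/j)` (for `u < v`),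
`≤ B (1/(v-1) + 1/u - 1/(v-1)) = B / u` in absolute value. -/
def S_D2 : Prop := ∀ (F : ℕ → ℝ) (B : ℝ), (∀ u v : ℕ, |∑ j ∈ Ico u v, F j| ≤ B) →
  ∀ u v : ℕ, 1 ≤ u → |∑ j ∈ Ico u v, F j / (j : ℝ)| ≤ B / u

/-- [D3] the `k`-th power. Uses: nothing.
Proof. `a` is defined by recursion on `k`: `a 0 m = 1` if `m = 1`, `0` otherwise;
`a (k+1) m = ∑_{p ∈ P, p ∣ m} a k (m / p)`. By induction: `a k m ≠ 0` implies `m ≠ 0`, all prime factors of `m`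
are in `P`, `Ω m = k`, `A^k ≤ m ≤ B^k`; `a (k+1) m ≤ (number of the primes dividing m) * k! ≤ (k+1)!`, because a number `m` with
`a (k+1) m ≠ 0` has at most `Ω m = k + 1` different prime factors. The identity by induction on `k`:
`(∑_{p} f p) * ∑_m a k m * f m = ∑_{p, m} a k m * f (p m)`, collect the terms with `p m = m'`. -/
def S_D3 : Prop := ∀ (P : Finset ℕ) (A B : ℝ), 1 ≤ A →
  (∀ p ∈ P, p.Prime ∧ A ≤ p ∧ (p : ℝ) ≤ B) → ∀ k : ℕ, ∃ a : ℕ → ℝ,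
  (∀ m, 0 ≤ a m ∧ a m ≤ k.factorial) ∧
  (∀ m, a m ≠ 0 → m ≠ 0 ∧ (∀ p : ℕ, p.Prime → p ∣ m → p ∈ P) ∧ A ^ k ≤ m ∧ (m : ℝ) ≤ B ^ k) ∧
  ∀ f : ℕ → ℝ, f 1 = 1 → (∀ x y : ℕ, x ≠ 0 → y ≠ 0 → f (x * y) = f x * f y) →
    ∀ R : ℕ, B ^ k ≤ R → (∑ p ∈ P, f p) ^ k = ∑ m ∈ Icc 1 R, a m * f m

/-- [D4] a sieve majorant. Uses: `S_M2`. (`G/Fl.lean` may be imported.)
Proof. `Fp` from `g_fl`, with the coefficients `c T` of `RepB`, `T ⊆ OP (2^2^m)`; `la d = c (d.primeFactors)` for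
squarefree `d` with `d.primeFactors ⊆ OP (2^2^m)`, `0` otherwise (compare `Lib/MP_d610d0_nt/CH/S/P/conv.lean`).
`∑_{d ∣ t} la d = Fp (fun p => if p ∣ t then 1 else 0) ≥ ∏ (1 - ρ p)`, which is `0` or `1`, and `1` if no prime in
`OP (2^2^m)` divides `t`. `∑ la d / d = Fp (fun p => 1/p) ≤ (1 + 1/1000) ∏ (1 - 1/p) ≤ C / log (2^2^m)` by `g_fl` and `S_M2`. -/
def S_D4 : Prop := ∃ C0 C : ℝ, 0 < C0 ∧ 0 < C ∧ ∀ m : ℕ, 2 ≤ m → ∃ la : ℕ → ℝ,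
  (∀ d, |la d| ≤ 1) ∧ (∀ d, la d ≠ 0 → Odd d ∧ (d : ℝ) ≤ C0 * ((2 : ℝ) ^ 2 ^ m) ^ 50) ∧
  (∀ t : ℕ, t ≠ 0 → 0 ≤ ∑ d ∈ t.divisors, la d) ∧
  (∀ t : ℕ, t ≠ 0 → (∀ p : ℕ, p.Prime → 3 ≤ p → p ≤ 2 ^ 2 ^ m → ¬ p ∣ t) →
    1 ≤ ∑ d ∈ t.divisors, la d) ∧
  ∀ N : ℕ, C0 * ((2 : ℝ) ^ 2 ^ m) ^ 50 ≤ N →
    ∑ d ∈ Icc 1 N, la d / (d : ℝ) ≤ C / Real.log ((2 : ℝ) ^ 2 ^ m)

/-- [D5] the sums with the majorant. Uses: `S_D1`, `S_D2`.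
Proof. (1) `∑_t (∑_{d ∣ t} la d) / t = ∑_d (la d / d) ∑_{j odd, U ≤ d j ≤ U'} 1/j` (`t = d j` odd iff `d`, `j` odd). For reals
`0 < x ≤ y` the sum of `1/j` over the odd `j ∈ [x, y]` is `(1/2) log (y/x) + θ (2/x)` with `|θ| ≤ 1` when `x ≥ 1`
(`d ≤ Q ≤ U`, so `x = U/d ≥ 1`), so the sum is at most `(1/2) log (U'/U) ∑ la d / d + ∑_{d ≤ Q} (1/d) (2 d/U)
≤ log (U'/U) L + 2 Q / U`. (2) The sum is `∑_{d ≤ Q, d odd} (la d / d) (D/d) ∑_{j odd, U ≤ d j ≤ U'} (D/j)/j`, `D = s s'`; by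
`S_D1` and `S_D2` (`u` = the least `j` with `U ≤ d j`, `u ≥ U/d`, `u ≥ 1`) the inner sum is at most
`4 s s' d / U`; sum over `d ≤ Q`. -/
def S_D5 : Prop := ∀ (la : ℕ → ℝ) (Q : ℕ) (L : ℝ), 0 ≤ L → (∀ d, |la d| ≤ 1) →
  (∀ d, la d ≠ 0 → Odd d ∧ d ≤ Q) → ∑ d ∈ Icc 1 Q, la d / (d : ℝ) ≤ L →
  ∀ U U' : ℕ, 1 ≤ U → Q ≤ U → U ≤ U' →
  (∑ t ∈ (Icc U U').filter (fun t => Odd t), (∑ d ∈ t.divisors, la d) / (t : ℝ)
    ≤ Real.log ((U' : ℝ) / U) * L + 2) ∧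
  ∀ s s' : ℕ, Odd s → Squarefree s → Odd s' → Squarefree s' → s ≠ s' →
    |∑ t ∈ (Icc U U').filter (fun t => Odd t),
      (∑ d ∈ t.divisors, la d) * ((jacobiSym ((s : ℤ) * s') t : ℤ) : ℝ) / (t : ℝ)|
      ≤ 4 * s * s' * Q / U

/-- [D6] the duality bound. Uses: `S_M1`, `S_D3`, `S_D4`, `S_D5`.
Proof. `P = Jw N X i`, `A = X^(i/N)`, `B = X^((i+1)/N)`, `k = 4 N`, so `A^k = X^(4 i) =: U`, `B^k = X^(4 (i+1)) =: U'`
(natural numbers). `m` is maximal with `2^(2^m) ≤ X^(1/(102 N))`; so `log (2^(2^m)) ≥ log X / (204 N)`, and for large `X`: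
`m ≥ 2`, `C0 ≤ 2^(2^m)`, so `Q = ⌊C0 (2^(2^m))^50⌋₊ ≤ X^(1/2)`, and `2^(2^m) < A`. `la` from `S_D4`,
`L = C / log (2^(2^m)) ≤ 204 N C / log X`, `b t = ∑_{d ∣ t} la d`. `a` from `S_D3`; `a t ≠ 0` implies that `t` is odd
(`p ≥ 3` for `p ∈ P`), `U ≤ t ≤ U'` and `b t ≥ 1`. With `T s = ∑_{p ∈ P} chi s p / p`, `f t = (2s/t) / t`:
`T s ^ k = ∑_t a t f t`. Let `R = S.card ≤ X + 1`, `G t = ∑_{s ∈ S} (2s/t)`:
`R x^k ≤ ∑_s T s ^ k = ∑_t a t G t / t` (`x` is the lower bound for `T s`), and by Cauchy-Schwarz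
`(R x^k)^2 ≤ (∑_t (a t)^2 / t) (∑_{t : a t ≠ 0} (G t)^2 / t) ≤ k! (∑_t a t / t) ∑_{t ∈ [U, U'] odd} b t (G t)^2 / t`.
`∑_t a t / t = (∑_{p ∈ P} 1/p)^k ≤ 1` (`S_M1` with `ε = 0.1` for the least and the largest element of `P`: at most
`log ((i+1)/i) + 0.1 ≤ log 2 + 0.1 ≤ 1`). `(G t)^2 = ∑_{s, s'} (2s/t) (2s'/t)`; for odd `t` and `s ≠ s'` the product is
`(4 s s'/t) = (s s'/t)`, for `s = s'` it is at most `1`. By `S_D5` the last sum is at most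
`R (log (U'/U) L + 2) + R^2 * 4 X^2 X^(1/2) / X^4 ≤ R (4 log X * 204 N C / log X + 2 + 1)` (as `R * 4 X^(-3/2) ≤ 1` for large `X`). So
`R ≤ k! (816 N C + 3) / x^(2k) ≤ K`. -/
def S_D6 : Prop := ∀ (N : ℕ) (x : ℝ), 2 ≤ N → 0 < x → ∃ K X0 : ℕ, ∀ X : ℕ, X0 ≤ X →
  ∀ i : ℕ, 1 ≤ i → i < N → ∀ S : Finset ℕ,
  (∀ s ∈ S, Odd s ∧ Squarefree s ∧ s ≤ X ∧ x ≤ ∑ p ∈ Jw N X i, chi s p / (p : ℝ)) → S.card ≤ K

/-- [D7] the squarefree parts of the numbers which are not good. Uses: `S_D6`.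
Proof. `S = ⋃_{1 ≤ i < N} S_i`, `S_i` the set of the odd squarefree `s ≤ X` with
`∑_{p ∈ Jw N X i} chi s p / p ≥ 1/(2 N^2)`; `S.card ≤ N K`. Let `n ≤ X` be odd, `n = s k^2`, `s` squarefree
(`Nat.sq_mul_squarefree`), `s ∉ S`. For odd `p`: `chi n p = chi s p` if `p ∤ k` and `0` if `p ∣ k`. So
`∑_{p ∈ Jw N X i} chi n p / p ≤ ∑_{p ∈ Jw N X i} chi s p / p + ∑_{p ∈ Jw N X i, p ∣ k} 1/p < 1/(2 N^2) + N X^(-1/N)`: the primes in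
`Jw N X i` are at least `X^(1/N)`, and at most `N` of them divide `k` (`k ≤ X`, `k ≥ 1`). For large `X` this is at most
`1/N^2`. -/
def S_D7 : Prop := ∀ N : ℕ, 2 ≤ N → ∃ K X0 : ℕ, ∀ X : ℕ, X0 ≤ X → ∃ S : Finset ℕ, S.card ≤ K ∧
  (∀ s ∈ S, Odd s ∧ Squarefree s ∧ s ≤ X) ∧
  ∀ n : ℕ, Odd n → n ≤ X → (∀ s ∈ S, ∀ k : ℕ, n ≠ s * k ^ 2) → Good N X n

/-! ## Section W: the weighted sieve -/

/-- [W1] Richert's weights. Uses: nothing.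
Proof. Let `w p = 1 - log p / log y`, `w p ≤ 0` for `p ≥ y`. With `v p` the exponent of `p` in `a`:
`∑_{p ∣ a} v p * w p = Ω a - log a / log y ≥ Ω a - log X / log y`. For `p < y` (then `z ≤ p`) `v p = 1`. So
`∑_{p ∣ a, p < y} w p ≥ Ω a - log X / log y`. The hypothesis says `∑_{p ∣ a, p < y} w p < 1 / lam` (the primes `p ∣ a`, `p < y` are
the elements of `Pr ⌈z⌉₊ ⌈y⌉₊` dividing `a`). So `Ω a < 1/lam + log X / log y ≤ r + 1`. -/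
def S_W1 : Prop := ∀ (r X a : ℕ) (z y lam : ℝ), 1 < z → z < y → 0 < lam →
  1 / lam + Real.log X / Real.log y ≤ r + 1 → 1 ≤ a → a ≤ X →
  (∀ p : ℕ, p.Prime → p ∣ a → z ≤ p) →
  (∀ p : ℕ, p.Prime → z ≤ p → (p : ℝ) < y → ¬ p ^ 2 ∣ a) →
  0 < 1 - ∑ p ∈ (Pr ⌈z⌉₊ ⌈y⌉₊).filter (fun p => p ∣ a), lam * (1 - Real.log p / Real.log y) →
  Ω a ≤ r

/-- The weight function of the weighted sieve, as a function of the variables `ρ p`. -/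
noncomputable def GG (Ap Am : (ℕ → ℝ) → ℝ) (X1 k l : ℕ) (D : ℝ) (wt : ℕ → ℝ) (ρ : ℕ → ℝ) : ℝ :=
  Ap ρ * th (X1 + 1) ρ k false D + Am ρ * th (X1 + 1) ρ k true D
    - Ap ρ * th (X1 + 1) ρ k true D
    - ∑ p ∈ Pr k l, wt p * ρ p * (Ap ρ * th (X1 + 1) ρ k true (D / p))

/-- [W2] the weight function in terms of coefficients. Uses: nothing. (Import
`Lib/MP_d610d0_nt/CH/S/P/rep.lean` and `P/comp.lean`: `p_rep`, `p_comp`, and compare `P/conv.lean`.)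
Proof. `P0 = OP X1`, `P1 = Pr (X1 + 1) k`, `P2 = Pr k l` are disjoint sets of odd primes (`X1 ≥ 2`). `p_rep` (`1 < D`,
`k ≤ l ≤ D`) and `p_comp` give the coefficients of the first three terms: a function on the subsets of
`P0 ∪ P1`, absolute values at most `3`, supported on `∏ ≤ Q0 * D`. For `p ∈ P2`: `1 < D / p` (`p < l ≤ D`), so
`Ap ρ * th ρ k true (D/p)` has coefficients of absolute value at most `1` (`RepB.mul`) supported on the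
`T ⊆ P0 ∪ P1` with `∏ T ≤ Q0 * (D / p)`; so `wt p * ρ p * (…)` has coefficients at most `3` on the sets
`insert p T`, `∏ ≤ Q0 * D`. The sets for different `p ∈ P2`, and those for `P0 ∪ P1`, are different, so all
coefficients together are at most `3`. Finally `c d` = the coefficient of `d.primeFactors` for squarefree `d`
with `d.primeFactors ⊆ P0 ∪ P1 ∪ P2`, `0` otherwise; `T ↦ ∏ T` is a bijection onto these `d` (as in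
`P/conv.lean`). `D / p` and the product: `∏ T ≤ Q0 (D/p)` and `p ∏ T ≤ Q0 D`. -/
def S_W2 : Prop := ∀ (X1 k l : ℕ) (Q0 D : ℝ) (Ap Am : (ℕ → ℝ) → ℝ) (wt : ℕ → ℝ), 2 ≤ X1 →
  X1 + 1 ≤ k → k ≤ l → 1 ≤ Q0 → 1 < D → (l : ℝ) ≤ D → (∀ p, 0 ≤ wt p ∧ wt p ≤ 3) →
  RepB (OP X1) (fun T => ∏ p ∈ T, (p : ℝ) ≤ Q0) Ap →
  RepB (OP X1) (fun T => ∏ p ∈ T, (p : ℝ) ≤ Q0) Am →
  ∃ c : ℕ → ℝ, Wei (Q0 * D) c ∧ ∀ N : ℕ, Q0 * D ≤ N → ∀ ρ : ℕ → ℝ,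
    ∑ d ∈ Icc 1 N, c d * ∏ p ∈ d.primeFactors, ρ p = GG Ap Am X1 k l D wt ρ

/-- [W3] the pointwise inequality. Uses: nothing. (`p_pt` of `Lib/MP_d610d0_nt/CH/S/P/pt.lean` may be imported.)
Proof. Let `ρ p = 1` if `p ∣ t`, `0` otherwise. For squarefree `d`, `∏_{p ∈ d.primeFactors} ρ p` is `1` if `d ∣ t` and `0`
otherwise, so `∑_{d ∣ t} c d = GG ρ` (with `N ≥ t`, `N ≥ Q0 D`; the `c d` with `d > N` vanish). Let
`a0 = ∏_{p ∈ OP X1} (1 - ρ p)`, `b0 = ∏_{p ∈ Pr (X1+1) k} (1 - ρ p)`, both `0` or `1`. `Am ≤ a0 ≤ Ap`, and by `p_pt`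
`th false D ≤ b0 ≤ th true D`, `b0 ≤ th true (D/p)`. So `Ap Bm + Am Bp - Ap Bp ≤ Ap b0 + a0 Bp - Ap Bp =
a0 b0 - (Ap - a0)(Bp - b0) ≤ a0 b0` (`Ap, Bp ≥ 0`) and every term of the sum is at least `wt p ρ p a0 b0`. So
`GG ρ ≤ a0 b0 (1 - ∑_{p ∈ Pr k l} wt p ρ p)`, and `a0 b0` is the indicator of `no prime 3 ≤ p < k divides t`. -/
def S_W3 : Prop := ∀ (X1 k l : ℕ) (Q0 D : ℝ) (Ap Am : (ℕ → ℝ) → ℝ) (wt c : ℕ → ℝ), 2 ≤ X1 →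
  X1 + 1 ≤ k → k ≤ l → (∀ p, 0 ≤ wt p) →
  (∀ ρ : ℕ → ℝ, (∀ p ∈ OP X1, 0 ≤ ρ p ∧ ρ p ≤ 1) →
    Am ρ ≤ ∏ p ∈ OP X1, (1 - ρ p) ∧ ∏ p ∈ OP X1, (1 - ρ p) ≤ Ap ρ) →
  Wei (Q0 * D) c →
  (∀ N : ℕ, Q0 * D ≤ N → ∀ ρ : ℕ → ℝ,
    ∑ d ∈ Icc 1 N, c d * ∏ p ∈ d.primeFactors, ρ p = GG Ap Am X1 k l D wt ρ) →
  ∀ t : ℕ, t ≠ 0 →
    ((∃ p : ℕ, p.Prime ∧ 3 ≤ p ∧ p < k ∧ p ∣ t) → ∑ d ∈ t.divisors, c d ≤ 0) ∧
    ((∀ p : ℕ, p.Prime → 3 ≤ p → p < k → ¬ p ∣ t) →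
      ∑ d ∈ t.divisors, c d ≤ 1 - ∑ p ∈ (Pr k l).filter (fun p => p ∣ t), wt p)

/-- [W4] the main term. Uses: nothing.
Proof. Let `V0 = ∏_{p ∈ OP X1} (1 - g p) > 0`, `V1 = Vg g (X1+1) k > 0`. `Am g ≤ V0 ≤ Ap g ≤ 1.001 V0`, `Am g ≥ 0.999 V0`,
`Bm = th false D ≥ (1 - l4) V1 ≥ 0`, `V1 ≤ Bp = th true D ≤ 2 V1`. `Ap Bm + Am Bp - Ap Bp = Ap Bm - (Ap - Am) Bp
≥ V0 V1 (1 - l4) - 0.002 V0 * 2 V1`. The sum: each term `wt p * g p * Ap g * th true (D/p) ≤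
wt p * g p * 1.001 V0 * V1 * H p`. -/
def S_W4 : Prop := ∀ (X1 k l : ℕ) (D l4 : ℝ) (Ap Am : (ℕ → ℝ) → ℝ) (wt H g : ℕ → ℝ), 2 ≤ X1 →
  X1 + 1 ≤ k → k ≤ l → Dg g → l4 ≤ 1 → (∀ p, 0 ≤ wt p) →
  (∏ p ∈ OP X1, (1 - g p) ≤ Ap g) → Ap g ≤ (1 + 1 / 1000) * ∏ p ∈ OP X1, (1 - g p) →
  (1 - 1 / 1000) * ∏ p ∈ OP X1, (1 - g p) ≤ Am g → Am g ≤ ∏ p ∈ OP X1, (1 - g p) →
  Vg g (X1 + 1) k * (1 - l4) ≤ th (X1 + 1) g k false D →
  th (X1 + 1) g k true D ≤ Vg g (X1 + 1) k * 2 →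
  Vg g (X1 + 1) k ≤ th (X1 + 1) g k true D →
  (∀ p ∈ Pr k l, 0 ≤ H p ∧ th (X1 + 1) g k true (D / p) ≤ Vg g (X1 + 1) k * H p) →
  (∏ p ∈ OP X1, (1 - g p)) * Vg g (X1 + 1) k *
    (1 - l4 - 0.004 - 1.001 * ∑ p ∈ Pr k l, wt p * g p * H p) ≤ GG Ap Am X1 k l D wt g

/-- The integral `∫_Z^Y (1 - t/Y) (Z/(Δ - t)) dt/t`. -/
noncomputable def II (Z Y Δ : ℝ) : ℝ :=
  Z / Y * (Y / Δ * Real.log (Y / Z) - (Δ - Y) / Δ * Real.log ((Δ - Z) / (Δ - Y)))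

/-- [W5] the sum with Richert's weights. Uses: nothing.
Proof. `Z = log z`, `Yy = log y`, `Δ = log D`, `h t = (1 - t/Yy) (Z/(Δ - t))` is nonnegative and antitone on `[Z, Yy]`
(`(Yy - t)/(Δ - t) = 1 - (Δ - Yy)/(Δ - t)`), `h t ≤ 1` (`2 Z ≤ Δ`: `h t ≤ h Z ≤ Z/(Δ - Z) ≤ 1`).
`J t = -(Z/Yy) ((Yy/Δ) log t + ((Δ - Yy)/Δ) log (Δ - t))` has the derivative `-h t / t`, so
`h t * (log t - log s) ≤ J s - J t` for `Z ≤ s ≤ t ≤ Yy` (the function `x ↦ J x + h t log x` is antitone on `[s, t]`), and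
`J Z - J Yy = II Z Yy Δ`. Let `k = ⌈z⌉₊`, `l = ⌈y⌉₊`, `A m = ∑_{p ∈ Pr k (m+1)} g p`, `h_m = h (log m)`; the case `k = l` is
trivial (empty sum, `II ≥ 0` as `J` is antitone). The left side is
`∑_{m=k}^{l-1} (A m - A (m-1)) h_m` (`A (k-1) = 0`) `= A (l-1) h_(l-1) + ∑_{m=k}^{l-2} A m (h_m - h_(m+1))`, which by
`A m ≤ log (log m) - log Z + ε` (the hypothesis for `m ≤ l - 1 < y`) is at most
`(log (log (l-1)) - log Z + ε) h_(l-1) + ∑_{m=k}^{l-2} (log (log m) - log Z + ε) (h_m - h_(m+1))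
= ε h_k + (log (log k) - log Z) h_k + ∑_{m=k+1}^{l-1} (log (log m) - log (log (m-1))) h_m
≤ ε + (J Z - J (log k)) + ∑_{m=k+1}^{l-1} (J (log (m-1)) - J (log m)) = ε + J Z - J (log (l-1)) ≤ ε + II Z Yy Δ`. -/
def S_W5 : Prop := ∀ (g : ℕ → ℝ) (z y D ε : ℝ), (∀ p : ℕ, p.Prime → 3 ≤ p → 0 ≤ g p) → 3 ≤ z →
  z < y → y < D → 2 * Real.log z ≤ Real.log D → 0 ≤ ε →
  (∀ m : ℕ, ⌈z⌉₊ ≤ m → (m : ℝ) ≤ y →
    ∑ p ∈ Pr ⌈z⌉₊ (m + 1), g p ≤ Real.log (Real.log m / Real.log z) + ε) →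
  ∑ p ∈ Pr ⌈z⌉₊ ⌈y⌉₊, (1 - Real.log p / Real.log y) * g p *
    (Real.log z / Real.log (D / p)) ≤ II (Real.log z) (Real.log y) (Real.log D) + ε

/-- [W6] numerics. Uses: nothing.
First: `τ/ζ = 0.495/0.1404 = 3.52564..`, `log ≤ 1.26007`; `(θ-ζ)/(θ-τ) = 0.4213/0.0667 = 6.31634..`, `log ≥ 1.84314`;
`II = 0.283636 * (0.881253 * 1.26007 - 0.118747 * 1.84314) = 0.283636 * (1.110440 - 0.218868) = 0.252883`; times
`3.6653 * (0.495/0.485) = 3.740874` it is `0.946006`. Second: `log (0.4/0.1246) = 1.166340`,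
`log (0.3739/0.0985) = 1.334026`, `II = 0.3115 * (0.802407 * 1.16634 - 0.197593 * 1.334026) = 0.3115 * (0.935880 - 0.263594)
= 0.209417`; times `3.6653 * 2/3` it is `0.511717`. -/
def S_W6 : Prop :=
  3.6653 * (0.495 / 0.485) * II 0.1404 0.495 0.5617 ≤ 0.9465 ∧
  3.6653 * (2 / 3) * II 0.1246 0.4 0.4985 ≤ 0.52

/-- The parameters of the weighted sieve; `lam = 1/(r + 1 - 1/τ)`, `θ₁` is the exponent of the level of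
the linear sieve. -/
structure Par (r : ℕ) (ζ τ θ₁ θ lam : ℝ) : Prop where
  ζ_pos : 0 < ζ
  ζτ : ζ < τ
  τθ : τ < θ₁
  θθ : θ₁ < θ
  θ1 : θ < 1
  lam_pos : 0 < lam
  lam_le : lam ≤ 3
  lam_eq : 1 / lam + 1 / τ = r + 1
  s4 : 4 * ζ ≤ θ₁
  s4' : θ₁ - ζ ≤ 3.01 * ζ
  num : 3.6653 * lam * II ζ τ θ₁ ≤ 0.95

/-- [W7] the weighted sieve. Uses: `S_M5`, `S_W1`, `S_W2`, `S_W3`, `S_W4`, `S_W5`. (Section G may be imported.)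
Proof. `u, l, U, L, K` from `g_ss`; `δ₁` small and `S` large (depending on the parameters only): let `κ = (θ - θ₁) / 102`,
`S = max 3 (2 θ₁ / κ)`, `ε₁` from `CH.S.p_eps` for this `S`: `Sm u l U L S ε₁`. `ε = min ε₁ 0.0001`. `N`, `X0` from `S_M5` for
`ε` and `δ = κ / 2`. Let `X` be large; `m` maximal with `2^(2^m) ≤ X^κ`, `X1 = 2^(2^m)` (so `X1^2 > X^κ`, `X1 + 1 > X^δ`);
`Q0 = C0 X1^50 ≤ X^(51 κ) ≤ X^(θ - θ₁)` (and `1 ≤ Q0`: enlarge `C0` to `max C0 1`), `D = X^θ₁`, `z = X^ζ`, `y = X^τ`, `k = ⌈z⌉₊`,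
`l = ⌈y⌉₊` (`l ≤ D`), `wt p = lam (1 - log p / log y)` for `z ≤ p < y` and `0` otherwise (`0 ≤ wt ≤ lam ≤ 3`), `Ap`, `Am` from
`g_fl`. `c` from `S_W2`; `Wei (X^θ) c` as `Q0 D ≤ X^θ`. Second part (`a ≤ X` odd): if a prime `3 ≤ p < k` divides `a`, then
`∑ c ≤ 0` (`S_W3`). Otherwise all primes dividing `a` are `≥ k ≥ z` and `∑ c ≤ 1 - ∑ wt`; if this is positive and no
`p^2 ∣ a`, `z ≤ p < y`, then `Ω a ≤ r` by `S_W1` (`log X / log y = 1/τ`); and `∑ c ≤ 1` always in this case.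
Third part: `g = gn n` satisfies `Dg` (`|chi| ≤ 1`), `MerG g ε₁ (X1+1) X` and the bound for the sums by `S_M5`. With
`a = X1 + 1`: `log D = θ₁ log X ≤ S log a` (`log a ≥ (κ/2) log X`). `s = log D / log z = θ₁/ζ ≥ 4`: `g_ls` gives
`LoG`, `UpG` at `(D, z)`: `1 - l s ≥ 1 - l 4 ≥ 1 - 0.0279`, `1 + u s ≤ 1 + u 4 ≤ 2`. For `p ∈ Pr k l` let `D' = D / p`, `log D' ≥ (θ₁ - τ) log X`, so
`D' ≥ a^3` (as `3 κ < θ₁ - τ`? choose `κ` also `≤ (θ₁ - τ)/8`). If `D' ≤ z^3`: `g_U1` gives `th true D' ≤ V1 K log z / log D'`.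
If `D' > z^3`: `g_ls` gives `th true D' ≤ V1 (1 + u (log D'/log z)) ≤ V1 (1 + u 3)`, and `3.015 (1 + u 3) ≤ K` (`SS.K3`), `log D' ≤
(θ₁ - ζ) log X ≤ 3.01 log z`, so `1 + u 3 ≤ K log z / log D'`. So `S_W4` applies with `H p = K log z / log (D/p)`, and by
`S_W5` (the sums of `g` by `S_M5`, `log k ≥ log z`) `∑ wt p g p H p ≤ lam K (II z y D + ε)`, `II` is homogeneous of degree `0`:
`II (ζ log X) (τ log X) (θ₁ log X) = II ζ τ θ₁`. The bracket of `S_W4` is at least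
`1 - 0.0279 - 0.004 - 1.001 (0.95 + 3 * 3.6653 * 0.0001) ≥ 0.01`. `V0 V1 = Vn n z` (`OP X1 ∪ Pr (X1+1) k = Pz z`). `c0 = 0.01`. -/
def S_W7 : Prop := ∀ (r : ℕ) (ζ τ θ₁ θ lam : ℝ), Par r ζ τ θ₁ θ lam → WS r ζ τ θ

/-! ## Section F: the remainder on average -/

/-- [F1] Fourier expansion. Uses: nothing.
Proof. `∑_{b < d} e(b k / d) = d` if `d ∣ k` and `0` otherwise (`k ∈ ℤ`). So `cnt M n d = (1/d) ∑_b ∑_{m ≤ M} e(b (n - 2 m^2)/d)`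
and `rho n d = (1/d) ∑_b ∑_{m < d} e(b (n - 2 m^2)/d)`, and `e(b (n - 2m^2)/d) = ee n (b/d) * ee (2 m^2) (-(b/d))`. -/
def S_F1 : Prop := ∀ M n d : ℕ, 1 ≤ d →
  ((rr M n d : ℝ) : ℂ) = 1 / (d : ℂ) * ∑ b ∈ range d, ee n ((b : ℝ) / d) * Er M b d

/-- [F2] Uses: nothing. Proof: `(k b)/(k q) = b/q`; `m ↦ ee (2 m^2) (-(b/q))` has the period `q`, so its sum over
`m < k q` is `k` times its sum over `m < q`. -/
def S_F2 : Prop := ∀ M b q k : ℕ, 1 ≤ q → 1 ≤ k → Er M (k * b) (k * q) = Er M b q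

/-- [F3] reduced fractions. Uses: nothing. Proof: `b ↦ (d / gcd b d, b / gcd b d)` is a bijection of `range d` onto the
pairs `(q, b')`, `q ∣ d`, `b' < q`, `b'` prime to `q` (inverse `(q, b') ↦ b' (d/q)`), and `G b d = G b' q` by the hypothesis with
`k = gcd b d` (for `b = 0`: `q = 1`, `b' = 0`). -/
def S_F3 : Prop := ∀ G : ℕ → ℕ → ℂ, (∀ b q k : ℕ, 1 ≤ q → 1 ≤ k → G (k * b) (k * q) = G b q) →
  ∀ d : ℕ, 1 ≤ d → ∑ b ∈ range d, G b d =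
    ∑ q ∈ d.divisors, ∑ b ∈ (range q).filter (fun b => b.Coprime q), G b q

/-- [F4] Parseval. Uses: nothing. Proof: `Er M b q = ∑_{a < q} rr M a q * e(-a b/q)` (group the `m` by the residue of
`2 m^2` modulo `q`: for each `m` there is exactly one `a < q` with `q ∣ a - 2 m^2`), so
`∑_b |Er|^2 = ∑_{a, a'} rr rr' ∑_b e(-(a - a') b/q) = q ∑_a rr^2`. -/
def S_F4 : Prop := ∀ M q : ℕ, 1 ≤ q →
  ∑ b ∈ range q, ‖Er M b q‖ ^ 2 = q * ∑ a ∈ range q, rr M a q ^ 2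

/-- [F5] Uses: `S_L1`, `S_L2`, `S_F4`. Proof: `|rr M a q| ≤ rho a q ≤ 2^ω(q)`, and
`∑_{a < q} |rr M a q| ≤ ∑_a cnt M a q + (M/q) ∑_a rho a q = M + M`. So `∑ rr^2 ≤ 2^ω(q) * 2 M`. -/
def S_F5 : Prop := ∀ M q : ℕ, Odd q → Squarefree q →
  ∑ b ∈ range q, ‖Er M b q‖ ^ 2 ≤ q * (2 ^ q.primeFactors.card * (2 * M))

/-- [F6] the number of exceptions. Uses: `S_F1`, `S_F2`, `S_F3`, `S_F5`, `S_L4`. (`MPbca.large_sieve_points`, `LS1.lean`.)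
Proof. By `S_F1`, `S_F2`, `S_F3` (with `G b q = ee n (b/q) * Er M b q`):
`∑_{d ≤ Q} c d rr M n d = ∑_{q ≤ Q} C_q ∑*_{b mod q} ee n (b/q) Er M b q`, `C_q = ∑_{d ≤ Q, q ∣ d} c d / d`. `C_q = 0` unless `q` is odd and
squarefree (a divisor of such a number), and `|C_q| ≤ (3/q) (1 + log Q)`. `Er M b 1 = 0` for `q = 1` (`Er M 0 1 = M - M`). Let
`σ n` be the sign of the left side for `n ∈ B` (and `0` for other `n`). `T B.card ≤ ∑_{n ∈ B} σ n ∑_q ∑*_b C_q Er M b q ee n (b/q)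
= ∑_q ∑*_b C_q Er M b q SS X σ (b/q)`, by Cauchy-Schwarz
`(T B.card)^2 ≤ (∑_q |C_q|^2 ∑_b |Er M b q|^2) (∑_{2 ≤ q ≤ Q} ∑*_b |SS X σ (b/q)|^2)`. The first factor is, by `S_F5` and `S_L4`, at most
`9 (1 + log Q)^2 ∑_q (1/q) 2^ω(q) 2 M ≤ 18 M (1 + log Q)^4`; the second one is at most
`(Q^2 + 4 π X) B.card` (`large_sieve_points` with `δ = 1/Q^2`: different reduced fractions `a/q ≠ b/r` have distance at least
`1/(q r)`, and `1/(2 Q^2) ≤ b/q ≤ 1 - 1/(2 Q^2)` for `q ≥ 2`). So `T^2 B.card ≤ 18 * 13 (Q^2 + X) M (1 + log Q)^4`. -/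
def S_F6 : Prop := ∃ C : ℝ, 0 < C ∧ ∀ (X Q M : ℕ) (c : ℕ → ℝ) (T : ℝ), 1 ≤ Q → Wei Q c → 0 < T →
  ∀ B : Finset ℕ, B ⊆ Icc 1 X → (∀ n ∈ B, T ≤ |∑ d ∈ Icc 1 Q, c d * rr M n d|) →
  (B.card : ℝ) * T ^ 2 ≤ C * ((Q : ℝ) ^ 2 + X) * M * (1 + Real.log Q) ^ 4

/-! ## Section A: the theorems -/

/-- [A1] the lower bound for the number of `m`. Uses: `S_L1`, `S_L3`.
Proof. Every `m ∈ [1, M]` has `2 m^2 ≤ 2 X/5`, so `a = n - 2 m^2` (natural subtraction) is odd, `≤ X` and `≥ X/2 - 2X/5 ≥ 2`.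
`∑_{m ≤ M} ∑_{d ∣ a} c d = ∑_{d ≤ X} c d cnt M n d` (the divisors of `a` are `≤ X`; `(d:ℤ) ∣ (n:ℤ) - 2 m^2` iff `d ∣ a`)
`= ∑_{d ≤ X} c d rr M n d + M ∑_{d ≤ X} c d ∏_{p ∣ d} gn n p` (`S_L1`, third part, for `c d ≠ 0`). By the hypothesis on `c` the left side is at
most the number of the `m` with `Ω a ≤ r` plus the number of the `m` with `p^2 ∣ a` for some `z ≤ p < y` (`S_L3`). -/
def S_A1 : Prop := ∀ (r X M n : ℕ) (ζ τ Q : ℝ) (c : ℕ → ℝ), 20 ≤ X → 0 < ζ → ζ ≤ τ →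
  3 ≤ (X : ℝ) ^ ζ → 5 * M ^ 2 ≤ X → Odd n → X < 2 * n → n ≤ X → Wei Q c → Q ≤ X →
  (∀ a : ℕ, Odd a → a ≤ X → ∑ d ∈ a.divisors, c d ≤ (if Ω a ≤ r then 1 else 0) +
    open Classical in
    (if ∃ p : ℕ, p.Prime ∧ (X : ℝ) ^ ζ ≤ p ∧ (p : ℝ) < (X : ℝ) ^ τ ∧ p ^ 2 ∣ a then 1 else 0)) →
  M * ∑ d ∈ Icc 1 X, c d * ∏ p ∈ d.primeFactors, gn n p + ∑ d ∈ Icc 1 X, c d * rr M n d
    - (4 * M / (X : ℝ) ^ ζ + 2 * (X : ℝ) ^ τ
      + M / (X : ℝ) ^ ζ * (Real.log n / Real.log ((X : ℝ) ^ ζ))) ≤ NP r n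

/-- THEOREM A. -/
def T3 : Prop := ∃ (c : ℝ) (X0 : ℕ), 0 < c ∧ ∀ X : ℕ, X0 ≤ X →
  open Classical in
  (((Icc 1 X).filter (fun n : ℕ => Odd n ∧
    (NP 2 n : ℝ) < c * Real.sqrt n / Real.log n * Sn n)).card : ℝ) ≤ (X : ℝ) ^ (5 / 8 : ℝ)

/-- THEOREM B. -/
def T2 : Prop := ∃ (c : ℝ) (K Y0 : ℕ), 0 < c ∧ ∀ Y : ℕ, Y0 ≤ Y → ∃ S : Finset ℕ, S.card ≤ K ∧
  (∀ s ∈ S, Odd s ∧ Squarefree s ∧ s ≤ Y) ∧
  ∀ n : ℕ, Odd n → Y ≤ n ^ 2 → n ≤ Y → (∀ s ∈ S, ∀ k : ℕ, n ≠ s * k ^ 2) →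
    c * Real.sqrt n / Real.log n * Sn n ≤ NP 3 n

/-- [A2] THEOREM B. Uses: `S_M7`, `S_L1`, `S_L2`, `S_L4`, `S_D7`, `S_W6`, `S_W7`, `S_A1`.
Proof. `Par 3 0.1246 0.4 0.4985 0.499 (2/3)` (`1/lam + 1/τ = 1.5 + 2.5 = 4`), so `WS 3 0.1246 0.4 0.499` gives `N, c0, X0`. `K`, `S`
from `S_D7` for this `N` (with `X := Y`). Let `n` be as in the statement; `X = n` in `WS` and `S_A1`, `M = ⌊√(n/5)⌋`
(`5 M^2 ≤ n`), `Good N Y n`, `n ≤ Y ≤ n^2`. The remainder: `|∑ c d rr M n d| ≤ 3 ∑_{d ≤ n^0.499} 2^ω(d) ≤ 3 n^0.499 (1 + log n)` (`S_L2`,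
`S_L1`, `S_L4`); the squares: `O(n^(1/2 - 0.1246) + n^0.4)`; the main term: `M c0 Vn n (n^ζ) ≥ M c0 c / (log n)^2` (`S_M7`), which is larger
than twice the sum of the other terms for large `n`. So `NP 3 n ≥ (1/2) M c0 Vn n (n^ζ) ≥ (1/2) M c0 (c / log n) Sn n` and
`M ≥ √n / 3`. -/
def S_A2 : Prop := T2

/-- [A3] THEOREM A. Uses: `S_M7`, `S_D7`, `S_W6`, `S_W7`, `S_F6`, `S_A1`.
Proof. `Par 2 0.1404 0.495 0.5617 0.562 (0.495/0.485)` (`1/lam + 1/τ = (0.485 + 1)/0.495 = 3`), so `WS 2 0.1404 0.495 0.562` gives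
`N, c0, X0`. For large `X`, the exceptions `n ∈ (X/2, X]`: `c` from `WS`, `Q = ⌊X^0.562⌋₊`, `M = ⌊√(X/5)⌋`. If `n` is odd, `Good N X n` and
`|∑ c d rr M n d| < T := M c0 c₁ / (4 (log X)^2)` (`c₁` from `S_M7`), then as in [A2] `NP 2 n ≥ (1/2) M c0 Vn n (X^ζ) ≥
c √n / log n Sn n`. The numbers `n ≤ X` that are not good are of the form `s k^2` with `s ∈ S`, `S.card ≤ K`: at most `K √X`. The other exceptions are,
by `S_F6`, at most `C (X^1.124 + X) M (1 + log X)^4 / T^2 ≤ C' X^(1.124 - 1/2) (log X)^8 = C' X^0.624 (log X)^8`. So the number of the exceptions in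
`(X/2, X]` is at most `X^0.6245` for `X ≥ X1`; the sum over `X, ⌊X/2⌋, ⌊X/4⌋, …` (every `n ≤ X` with `n > X1` is in
`(X'/2, X']` for an `X' = ⌊X/2^j⌋ ≥ X1`, `2^(-0.6245) < 0.65`, so the sum of the powers is at most `3 X^0.6245`), plus `X1` for the rest, is at
most `X^(5/8)`. -/
def S_A3 : Prop := T3

end Pool.Agent.PSq
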